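import Pool.Agent.Y34.EL.Stm

/-!
EL-TRI: two angles of a triangle.
-/

set_option autoImplicit false

universe u

open Metric Set Filter Topology
open Pool.Agent.TH60.FP Pool.Agent.Y34.HB

namespace Pool.Agent.Y474.EL

open Pool.Agent.Y34.EL

/-- the inequality for the sides of a triangle -/
theorem ineq (a b c T X Y : ℝ) (ha : 0 < a) (hb : 0 < b) (hc : 0 < c)
    (h1 : a ≤ b + c) (h2 : b ≤ a + c)
    (hX : X * (c * b) ≤ T ^ 2 * (a ^ 2 - (c - b) ^ 2))
    (hY : Y * (c * a) ≤ T ^ 2 * (b ^ 2 - (c - a) ^ 2)) : X + Y ≤ 4 * T ^ 2 := by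
  have h3 : 0 ≤ (a + b) * (c ^ 2 - (a - b) ^ 2) := by
    have h4 : c ^ 2 - (a - b) ^ 2 = (c - (a - b)) * (c + (a - b)) := by ring
    rw [h4]
    exact mul_nonneg (by linarith) (mul_nonneg (by linarith) (by linarith))
  have h5 := mul_le_mul_of_nonneg_left hX ha.le
  have h6 := mul_le_mul_of_nonneg_left hY hb.le
  have h7 := mul_nonneg (sq_nonneg T) h3
  have h8 : 0 < a * b * c := by positivity
  have h9 : (X + Y) * (a * b * c) ≤ 4 * T ^ 2 * (a * b * c) := by
    linarith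
  exact le_of_mul_le_mul_right h9 h8

theorem t (h : S_CMP.{u}) : S_TRI.{u} := by
  intro X _ _ hX A B C T a a' b b' h1 h2 h3 h4
  obtain ⟨h1a, h1b⟩ := h1
  obtain ⟨h2a, h2b⟩ := h2
  obtain ⟨h3a, h3b⟩ := h3
  obtain ⟨h4a, h4b⟩ := h4
  have hT : 0 ≤ T := h1a ▸ dist_nonneg
  have hAB : T ≤ dist A B := by linarith [dist_nonneg (x := a) (y := B)]
  have hAC : T ≤ dist A C := by linarith [dist_nonneg (x := a') (y := C)]
  have hBC : T ≤ dist B C := by linarith [dist_nonneg (x := b') (y := C)]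
  rcases hT.eq_or_lt with h0 | h0
  · have e1 : A = a := dist_eq_zero.1 (h1a.trans h0.symm)
    have e2 : A = a' := dist_eq_zero.1 (h2a.trans h0.symm)
    have e3 : B = b := dist_eq_zero.1 (h3a.trans h0.symm)
    have e4 : B = b' := dist_eq_zero.1 (h4a.trans h0.symm)
    rw [← e1, ← e2, ← e3, ← e4, dist_self, dist_self, ← h0]
    norm_num
  · have g1 := (h X hX).1 A B C T a a' ⟨h1a, h1b⟩ ⟨h2a, h2b⟩
    have g2 := (h X hX).1 B A C T b b' ⟨h3a, h3b⟩ ⟨h4a, h4b⟩
    rw [dist_comm B A] at g2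
    refine ineq (dist B C) (dist A C) (dist A B) T _ _ (by linarith) (by linarith) (by linarith)
      ?_ ?_ g1 g2
    · have := dist_triangle B A C
      rw [dist_comm B A] at this
      linarith
    · have := dist_triangle A B C
      linarith

end Pool.Agent.Y474.EL
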